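import Pool.Agent.H37.SP.Stm

/-!
Parts PER and CRT of the crew SP (`MP_0cd084_nt`).
-/

set_option autoImplicit false

namespace H14.SP

open Finset Pool.Agent.H37.SP

lemma sum_range_mul (q : ℕ) (G : ℕ → ℝ) (hG : ∀ k, G (k % q) = G k) (a : ℕ) :
    ∑ k ∈ range (q * a), G k = a * ∑ k ∈ range q, G k := by
  induction a with
  | zero => simp
  | succ a ih =>
    rw [Nat.mul_succ, Finset.sum_range_add, ih]
    have : ∀ x ∈ range q, G (q * a + x) = G x := by
      intro x _
      rw [← hG (q * a + x), Nat.mul_add_mod, hG]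
    rw [Finset.sum_congr rfl this]
    push_cast
    ring

theorem t_PER : S_PER := by
  intro q X hq G hb hG
  have hq' : (0 : ℝ) < q := by exact_mod_cast hq
  obtain ⟨a, b, hab, hX⟩ : ∃ a b, b < q ∧ X = q * a + b :=
    ⟨X / q, X % q, Nat.mod_lt _ hq, (Nat.div_add_mod X q).symm⟩
  have e1 : ∑ k ∈ range X, G k = a * (∑ k ∈ range q, G k) + ∑ k ∈ range b, G k := by
    rw [hX, Finset.sum_range_add, sum_range_mul q G hG]
    congr 1
    refine Finset.sum_congr rfl fun x _ => ?_
    rw [← hG (q * a + x), Nat.mul_add_mod, hG]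
  have bS : ∀ n : ℕ, |∑ k ∈ range n, G k| ≤ n := by
    intro n
    refine (Finset.abs_sum_le_sum_abs _ _).trans ?_
    refine (Finset.sum_le_sum fun k _ => hb k).trans ?_
    simp
  have e2 : ∑ k ∈ range X, G k - X * ((∑ k ∈ range q, G k) / q) =
      ∑ k ∈ range b, G k - b * ((∑ k ∈ range q, G k) / q) := by
    rw [e1, hX]
    push_cast
    field_simp
    ring
  rw [e2]
  have hbq : (b : ℝ) ≤ q := by exact_mod_cast hab.le
  have h1 := bS b
  have h2 : |(b : ℝ) * ((∑ k ∈ range q, G k) / q)| ≤ b := by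
    rw [abs_mul, abs_div, abs_of_nonneg (Nat.cast_nonneg b), abs_of_pos hq']
    have : |∑ k ∈ range q, G k| / q ≤ 1 := by
      rw [div_le_one hq']; exact bS q
    nlinarith [Nat.cast_nonneg (α := ℝ) b]
  calc |∑ k ∈ range b, G k - b * ((∑ k ∈ range q, G k) / q)|
      ≤ |∑ k ∈ range b, G k| + |(b : ℝ) * ((∑ k ∈ range q, G k) / q)| := abs_sub _ _
    _ ≤ b + b := add_le_add h1 h2
    _ ≤ 2 * q := by linarith

lemma crt_two (m n : ℕ) (hm : 0 < m) (hn : 0 < n) (h : m.Coprime n) (f g : ℕ → ℝ)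
    (hf : ∀ k, f (k % m) = f k) (hg : ∀ k, g (k % n) = g k) :
    ∑ k ∈ range (m * n), f k * g k = (∑ k ∈ range m, f k) * ∑ k ∈ range n, g k := by
  rw [Finset.sum_mul_sum, ← Finset.sum_product']
  refine Finset.sum_bij' (fun k _ => (k % m, k % n))
    (fun x _ => (Nat.chineseRemainder h x.1 x.2 : ℕ)) ?_ ?_ ?_ ?_ ?_
  · intro k _
    simp only [mem_product, mem_range]
    exact ⟨Nat.mod_lt _ hm, Nat.mod_lt _ hn⟩
  · intro x _
    rw [mem_range]
    exact Nat.chineseRemainder_lt_mul h _ _ hm.ne' hn.ne'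
  · intro k hk
    rw [mem_range] at hk
    have h1 := (Nat.chineseRemainder h (k % m) (k % n)).2
    have h2 : k ≡ (Nat.chineseRemainder h (k % m) (k % n) : ℕ) [MOD m * n] := by
      refine (Nat.modEq_and_modEq_iff_modEq_mul h).1 ⟨?_, ?_⟩
      · exact ((Nat.mod_modEq k m).symm.trans h1.1.symm)
      · exact ((Nat.mod_modEq k n).symm.trans h1.2.symm)
    have h3 := Nat.chineseRemainder_lt_mul h (k % m) (k % n) hm.ne' hn.ne'
    exact (Nat.ModEq.eq_of_lt_of_lt h2 hk h3).symm
  · intro x hx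
    simp only [mem_product, mem_range] at hx
    have h1 := (Nat.chineseRemainder h x.1 x.2).2
    ext
    · exact (Nat.mod_eq_of_modEq h1.1 hx.1)
    · exact (Nat.mod_eq_of_modEq h1.2 hx.2)
  · intro k _
    simp only [hf, hg]

theorem t_CRT : S_CRT := by
  intro r
  induction r with
  | zero =>
    intro q _ _ F _
    simp
  | succ r ih =>
    intro q hq hc F hF
    have hprod : ∀ i : Fin r, 0 < q i.succ := fun i => hq _
    have hcop : (q 0).Coprime (∏ i : Fin r, q i.succ) :=
      Nat.Coprime.prod_right fun i _ => hc 0 i.succ (Fin.succ_ne_zero i).symm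
    have h1 := ih (fun i => q i.succ) hprod
      (fun i j hij => hc i.succ j.succ (fun h => hij (Fin.succ_injective _ h)))
      (fun i => F i.succ) (fun i k => hF i.succ k)
    rw [Fin.prod_univ_succ (f := q), Fin.prod_univ_succ (f := fun i => ∑ k ∈ range (q i), F i k)]
    rw [← h1]
    have h2 := crt_two (q 0) (∏ i : Fin r, q i.succ) (hq 0) (Finset.prod_pos fun i _ => hq _) hcop
      (F 0) (fun k => ∏ i : Fin r, F i.succ k) (hF 0) ?_
    · rw [← h2]
      refine Finset.sum_congr rfl fun k _ => ?_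
      rw [Fin.prod_univ_succ]
    · intro k
      refine Finset.prod_congr rfl fun i _ => ?_
      rw [← hF i.succ (k % _), Nat.mod_mod_of_dvd _ (Finset.dvd_prod_of_mem _ (mem_univ i)),
        hF i.succ]

end H14.SP
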